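import Pool.Agent.H664.EX.Stm2
import Pool.Graph.R_seed8.W337.EC.Exp

/-!
Project EX (helper664), job DEG: the degenerate case of a rank one lattice (by helper286).
-/

set_option autoImplicit false

namespace Pool.Agent.H286.EX

open MvPolynomial Filter Topology Metric Pool.Agent.W996.EC Pool.Agent.Q72.EG Pool.Agent.H664.FH
open Pool.Agent.H664.EX

theorem fin2_zero : ∀ i : Fin 2, i ≠ 1 → i = 0 := by decide

section alg

variable {E : Type} [Field E] [Algebra ℂ E]

/-- the closure operator of algebraic dependence -/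
noncomputable abbrev cl (A : Set E) : Set E := (AlgebraicIndependent.matroid ℂ E).closure A

theorem mem_cl {A : Set E} {f : E} : f ∈ cl A ↔ Al A f := by
  rw [cl, AlgebraicIndependent.matroid_closure_eq, SetLike.mem_coe, Subalgebra.mem_algebraicClosure,
    ← IntermediateField.isAlgebraic_adjoin_iff]

theorem cl_mono {A B : Set E} (h : A ⊆ B) : cl A ⊆ cl B :=
  Matroid.closure_subset_closure _ h

theorem cl_le {A B : Set E} (h : A ⊆ cl B) : cl A ⊆ cl B :=
  Matroid.closure_subset_closure_of_subset_closure h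

theorem sub_cl (A : Set E) : A ⊆ cl A :=
  Matroid.subset_closure _ A (Set.subset_univ _)

omit [Algebra ℂ E] in
/-- algebraicity over a larger field -/
theorem alg_mono {F₁ F₂ : Type} [Field F₁] [Field F₂] [Algebra F₁ E] [Algebra F₂ E]
    (h : ∀ x : F₁, ∃ y : F₂, algebraMap F₂ E y = algebraMap F₁ E x) {g : E}
    (hg : IsAlgebraic F₁ g) : IsAlgebraic F₂ g := by
  choose φ hφ using h
  have hinj : Function.Injective (algebraMap F₂ E) := (algebraMap F₂ E).injective
  let ψ : F₁ →+* F₂ :=
    { toFun := φ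
      map_one' := hinj (by rw [hφ, map_one, map_one])
      map_mul' := fun x y => hinj (by rw [hφ, map_mul, map_mul, hφ, hφ])
      map_zero' := hinj (by rw [hφ, map_zero, map_zero])
      map_add' := fun x y => hinj (by rw [hφ, map_add, map_add, hφ, hφ]) }
  obtain ⟨p, hp, hp0⟩ := hg
  refine ⟨p.map ψ, (Polynomial.map_ne_zero_iff ψ.injective).2 hp, ?_⟩
  have hc : (algebraMap F₂ E).comp ψ = algebraMap F₁ E := RingHom.ext hφ
  rw [Polynomial.aeval_def, Polynomial.eval₂_map, hc]
  exact hp0

/-- algebraic numbers over `ℂ` -/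
theorem alg_const {f : E} (h : IsAlgebraic ℂ f) : ∃ c : ℂ, f = algebraMap ℂ E c := by
  have h1 := IsAlgClosed.degree_eq_one_of_irreducible ℂ (minpoly.irreducible h.isIntegral)
  obtain ⟨c, hc⟩ := minpoly.mem_range_of_degree_eq_one ℂ f h1
  exact ⟨c, hc.symm⟩

theorem indep2 {a b : E} (ha : Transcendental ℂ a) (hb : ¬ Al {a} b) :
    AlgebraicIndependent ℂ ![a, b] := by
  rw [AlgebraicIndependent.iff_transcendental_adjoin_image 1]
  constructor
  · have : Unique {j : Fin 2 // j ≠ 1} :=
      { default := ⟨0, by decide⟩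
        uniq := by
          rintro ⟨j, hj⟩
          apply Subtype.ext
          exact fin2_zero j hj }
    rw [algebraicIndependent_unique_type_iff]
    have : (default : {j : Fin 2 // j ≠ 1}) = ⟨0, by decide⟩ := Subsingleton.elim _ _
    rw [this]
    exact ha
  · have : (![a, b] '' {1}ᶜ : Set E) = {a} := by
      ext x
      simp only [Set.mem_image, Set.mem_compl_iff, Set.mem_singleton_iff]
      constructor
      · rintro ⟨i, hi, rfl⟩
        have : i = 0 := fin2_zero i hi
        rw [this]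
        rfl
      · rintro rfl
        exact ⟨0, by decide, rfl⟩
    rw [this]
    exact fun h => hb (IntermediateField.isAlgebraic_adjoin_iff.2 h)

/-- a polynomial relation which does not involve the third variable -/
theorem exists_rel {n : ℕ} (x : Fin n → E) (i j k : Fin n) (hij : i ≠ j) (hik : k ≠ i)
    (hjk : k ≠ j) (h : Al {x i} (x j)) :
    ∃ f : MvPolynomial (Fin n) ℂ, f ≠ 0 ∧ aeval x f = 0 ∧ degreeOf k f = 0 := by
  classical
  have h1 : ¬ AlgebraicIndependent ℂ ![x i, x j] := by
    intro h2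
    rw [AlgebraicIndependent.iff_transcendental_adjoin_image 1] at h2
    refine h2.2 (IntermediateField.isAlgebraic_adjoin_iff.1 ?_)
    have : (![x i, x j] '' {1}ᶜ : Set E) = {x i} := by
      ext y
      simp only [Set.mem_image, Set.mem_compl_iff, Set.mem_singleton_iff]
      constructor
      · rintro ⟨l, hl, rfl⟩
        have : l = 0 := fin2_zero l hl
        rw [this]
        rfl
      · rintro rfl
        exact ⟨0, by decide, rfl⟩
    rw [this]
    exact h
  rw [algebraicIndependent_iff] at h1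
  push Not at h1
  obtain ⟨g, hg, hg0⟩ := h1
  have hinj : Function.Injective (![i, j] : Fin 2 → Fin n) := by
    intro a b hab
    fin_cases a <;> fin_cases b <;> simp_all
  refine ⟨rename ![i, j] g, ?_, ?_, ?_⟩
  · rw [Ne, map_eq_zero_iff _ (rename_injective _ hinj)]
    exact hg0
  · rw [aeval_rename]
    have : x ∘ ![i, j] = ![x i, x j] := by
      funext l
      fin_cases l <;> rfl
    rw [this]
    exact hg
  · by_contra h2
    have h3 := mem_vars_iff_degreeOf_ne_zero.2 h2
    have h4 := vars_rename _ _ h3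
    rw [Finset.mem_image] at h4
    obtain ⟨l, -, hl⟩ := h4
    fin_cases l
    · exact hik hl.symm
    · exact hjk hl.symm

theorem degreeOf_dvd {n : ℕ} {P f : MvPolynomial (Fin n) ℂ} (hf : f ≠ 0) (h : P ∣ f) {k : Fin n}
    (hk : degreeOf k f = 0) : degreeOf k P = 0 := by
  obtain ⟨r, rfl⟩ := h
  rw [degreeOf_mul_eq (left_ne_zero_of_mul hf) (right_ne_zero_of_mul hf)] at hk
  omega

/-- the relation involves at least two variables -/
theorem not_one_var {n : ℕ} {P : MvPolynomial (Fin n) ℂ} (hP : P ≠ 0) {x : Fin n → E} (i : Fin n)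
    (hx : aeval x P = 0) (hd : ∀ k, k ≠ i → degreeOf k P = 0) (hi : Transcendental ℂ (x i)) :
    False := by
  classical
  have h1 : (P.vars : Set (Fin n)) ⊆ Set.range (fun _ : Unit => i) := by
    intro k hk
    by_contra h2
    have h3 : k ≠ i := fun h => h2 ⟨(), h.symm⟩
    exact (mem_vars_iff_degreeOf_ne_zero.1 hk) (hd k h3)
  obtain ⟨q, hq⟩ := exists_rename_eq_of_vars_subset_range P (fun _ : Unit => i)
    (fun a b _ => Subsingleton.elim a b) h1
  have h2 : AlgebraicIndependent ℂ (fun _ : Unit => x i) := by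
    rw [algebraicIndependent_unique_type_iff]
    exact hi
  have h3 : aeval (fun _ : Unit => x i) q = 0 := by
    rw [← hx, ← hq, aeval_rename]
    rfl
  have h4 : q = 0 := h2 (by rw [h3, map_zero])
  exact hP (by rw [← hq, h4, map_zero])

end alg

/-- exponential polynomials with two frequencies -/
theorem exp_zero (N : Finset (ℕ × ℕ)) (c : ℕ × ℕ → ℂ) (hc : ∀ e ∈ N, c e ≠ 0)
    (hN : ∃ e ∈ N, ∃ e' ∈ N, e.1 ≠ e'.1) :
    ∃ B : ℂ, ∑ e ∈ N, c e * Complex.exp B ^ e.1 * B ^ e.2 = 0 := by
  classical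
  obtain ⟨e, he, e', he', hne⟩ := hN
  set Q : ℤ → Polynomial ℂ := fun j => ∑ e ∈ N with (e.1 : ℤ) = j, Polynomial.monomial e.2 (c e)
    with hQ
  have hQ0 : ∀ e ∈ N, Q e.1 ≠ 0 := by
    intro e he h0
    have h1 : (Q e.1).coeff e.2 = c e := by
      simp only [hQ]
      rw [Polynomial.finsetSum_coeff, Finset.sum_eq_single e]
      · rw [Polynomial.coeff_monomial, if_pos rfl]
      · intro b hb hbe
        rw [Finset.mem_filter] at hb
        rw [Polynomial.coeff_monomial, if_neg]
        intro h2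
        apply hbe
        ext
        · exact_mod_cast hb.2
        · exact h2
      · intro h2
        exact (h2 (Finset.mem_filter.2 ⟨he, rfl⟩)).elim
    rw [h0, Polynomial.coeff_zero] at h1
    exact hc e he h1.symm
  obtain ⟨B, hB⟩ := Pool.Agent.W337.EC.t_exp (N.image fun e => (e.1 : ℤ)) Q e.1 e'.1
    (Finset.mem_image_of_mem _ he) (Finset.mem_image_of_mem _ he') (by exact_mod_cast hne)
    (hQ0 e he) (hQ0 e' he')
  refine ⟨B, ?_⟩
  rw [← hB, ← Finset.sum_fiberwise_of_maps_to (s := N) (t := N.image fun e => (e.1 : ℤ))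
    (g := fun e => (e.1 : ℤ)) (fun e he => Finset.mem_image_of_mem _ he)]
  refine Finset.sum_congr rfl fun j hj => ?_
  simp only [hQ]
  rw [Polynomial.eval_finsetSum, Finset.sum_mul]
  refine Finset.sum_congr rfl fun e he => ?_
  rw [Finset.mem_filter] at he
  rw [Polynomial.eval_monomial, ← he.2, ← Complex.exp_nat_mul]
  push_cast
  ring

/-- renaming of the coordinates -/
def rn : Fin 3 ⊕ Fin 3 → Fin 4 ⊕ Fin 2 :=
  Sum.elim ![Sum.inl 0, Sum.inr 1, Sum.inl 1] ![Sum.inl 2, Sum.inr 0, Sum.inl 3]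

theorem comp_rn {α : Type} (x y : Fin 3 → α) :
    (Sum.elim ![x 0, x 2, y 0, y 2] ![y 1, x 1]) ∘ rn = Sum.elim x y := by
  funext o
  rcases o with l | l <;> fin_cases l <;> rfl

/-- **job DEG** -/
theorem deg (h1 : S_ov) (h2 : S_gp) : S_deg := by
  classical
  intro E _ _ G hT2 hadd hy0 hx2 hxy0
  set x := G.x with hx
  set y := G.y with hy
  have hrx : ∀ i, x i ∈ Set.range x := fun i => ⟨i, rfl⟩
  -- linear forms in `x` are not constant
  have hlin : ∀ m : Fin 3 → ℤ, m ≠ 0 → ∀ c : ℂ, ∑ j, (m j : E) * x j ≠ algebraMap ℂ E c := by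
    intro m hm c hc
    refine hadd m hm c ((G.hx _).1 ?_)
    rw [map_sub, map_sum, aeval_C, sub_eq_zero, ← hc]
    refine Finset.sum_congr rfl fun j _ => ?_
    rw [map_mul, aeval_X, aeval_C]
    congr 1
    simp
  have hx0 : Transcendental ℂ (x 0) := by
    intro h
    obtain ⟨c, hc⟩ := alg_const h
    refine hlin (Pi.single 0 1) (by
      intro h
      have := congrFun h 0
      simp at this) c ?_
    rw [← hc, Finset.sum_eq_single 0]
    · simp
    · intro b _ hb
      rw [Pi.single_eq_of_ne hb]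
      simp
    · intro h
      exact absurd (Finset.mem_univ _) h
  have hT2' : y 2 ∉ cl (Set.range x) := fun h => hT2 (mem_cl.1 h)
  -- `x 1` is not algebraic over `ℂ(x 0, y 2)`
  have hx1 : x 1 ∉ cl ({x 0, y 2} : Set E) := by
    intro h
    by_cases h3 : x 1 ∈ cl ({x 0} : Set E)
    · obtain ⟨f, hf0, hf, hfd⟩ := exists_rel x 0 1 2 (by decide) (by decide) (by decide)
        (mem_cl.1 h3)
      obtain ⟨g, hg0, hg, hgd⟩ := exists_rel x 0 2 1 (by decide) (by decide) (by decide) hx2
      have d2 := degreeOf_dvd hf0 ((G.hx f).1 hf) hfd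
      have d1 := degreeOf_dvd hg0 ((G.hx g).1 hg) hgd
      refine not_one_var (x := x) G.hP.ne_zero 0 ((G.hx _).2 dvd_rfl) ?_ hx0
      intro k hk
      fin_cases k
      · exact absurd rfl hk
      · exact d1
      · exact d2
    · rw [Set.pair_comm] at h
      have h4 := (Matroid.closure_exchange ⟨h, h3⟩).1
      refine hT2' (cl_mono ?_ h4)
      rintro _ (rfl | rfl)
      · exact hrx 1
      · exact hrx 0
  -- the field `L`
  let K' : IntermediateField ℂ E := IntermediateField.adjoin ℂ {x 0, y 2}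
  let L : IntermediateField ℂ E := (algebraicClosure K' E).restrictScalars ℂ
  have hL : ∀ f : E, f ∈ L ↔ f ∈ cl ({x 0, y 2} : Set E) := by
    intro f
    rw [mem_cl]
    exact mem_algebraicClosure_iff
  have hLL : ∀ f : E, IsAlgebraic L f → f ∈ L := by
    intro f hf
    have : IsAlgebraic (algebraicClosure K' E) f := hf
    exact mem_algebraicClosure_iff.2 (this.restrictScalars K')
  have hξ : ∀ s : Fin 4, (![x 0, x 2, y 0, y 2] : Fin 4 → E) s ∈ L := by
    intro s
    rw [hL]
    have e0 : x 0 ∈ cl ({x 0, y 2} : Set E) := sub_cl _ (Set.mem_insert _ _)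
    have e3 : ({x 0} : Set E) ⊆ {x 0, y 2} := by
      rintro _ rfl
      exact Set.mem_insert _ _
    fin_cases s
    · exact e0
    · exact cl_mono e3 (mem_cl.2 hx2)
    · exact cl_mono e3 (mem_cl.2 hxy0)
    · exact sub_cl _ (Set.mem_insert_of_mem _ rfl)
  have hLx : ∀ f ∈ L, f ∈ IntermediateField.adjoin L {x 1} := by
    intro f hf
    exact (IntermediateField.adjoin L {x 1}).algebraMap_mem ⟨f, hf⟩
  have hself : x 1 ∈ IntermediateField.adjoin L {x 1} :=
    IntermediateField.mem_adjoin_simple_self L (x 1)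
  have halg : IsAlgebraic (IntermediateField.adjoin L {x 1}) (y 1) := by
    have h3 := G.tr1 (y 2) (y 1) hT2
    refine alg_mono ?_ h3
    rintro ⟨f, hf⟩
    suffices hh : f ∈ (IntermediateField.adjoin L {x 1}).restrictScalars ℂ from ⟨⟨f, hh⟩, rfl⟩
    revert hf
    suffices hle : IntermediateField.adjoin ℂ (insert (y 2) (Set.range x)) ≤
        (IntermediateField.adjoin L {x 1}).restrictScalars ℂ from fun hf => hle hf
    rw [IntermediateField.adjoin_le_iff]
    rintro _ (rfl | ⟨i, rfl⟩)
    · exact hLx _ (hξ 3)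
    · fin_cases i
      · exact hLx _ (hξ 0)
      · exact hself
      · exact hLx _ (hξ 1)
  obtain ⟨N, c, Q, hQL, hcN, hNN, hfin⟩ := h2 E L (Fin 4) ![x 0, x 2, y 0, y 2] (y 1) (x 1) hξ
    (G.hy 1) (fun h => hx1 ((hL _).1 (hLL _ h))) halg
  -- the point of `L`
  obtain ⟨z₀, θ₀, q, hq⟩ := h1 E (x 0) (x 2) (y 0) (y 2)
    (indep2 hx0 fun h => hT2' (cl_mono (by rintro _ rfl; exact hrx 0) (mem_cl.2 h)))
    hx2 hxy0 (G.hy 0) hy0 (by
      intro m₁ m₂ hm c hc
      refine hlin ![m₁, 0, m₂] ?_ c ?_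
      · intro h
        have e0 := congrFun h 0
        have e2 := congrFun h 2
        simp at e0 e2
        rcases hm with hm | hm
        · exact hm e0
        · exact hm e2
      · rw [← hc, Fin.sum_univ_three]
        simp) (Q ∪ Q.image fun k => k⁻¹) (by
      intro k hk
      rw [Finset.mem_union, Finset.mem_image] at hk
      rcases hk with hk | ⟨l, hl, rfl⟩
      · exact mem_cl.1 ((hL _).1 (hQL k hk))
      · exact mem_cl.1 ((hL _).1 (L.inv_mem (hQL l hl))))
  have hqc : ∀ e ∈ N, q (c e) ≠ 0 := by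
    intro e he
    obtain ⟨hce, hcQ⟩ := hcN e he
    have m1 : c e ∈ Q ∪ Q.image fun k => k⁻¹ := Finset.mem_union_left _ hcQ
    have m2 : (c e)⁻¹ ∈ Q ∪ Q.image fun k => k⁻¹ :=
      Finset.mem_union_right _ (Finset.mem_image_of_mem _ hcQ)
    have h3 := hq (MvPolynomial.X (Sum.inr ⟨c e, m1⟩) * MvPolynomial.X (Sum.inr ⟨(c e)⁻¹, m2⟩) - 1)
      (by
        simp only [map_sub, map_mul, aeval_X, map_one, Sum.elim_inr]
        rw [mul_inv_cancel₀ hce, sub_self])
    simp only [map_sub, map_mul, eval_X, map_one, Sum.elim_inr] at h3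
    intro h0
    rw [h0, zero_mul, zero_sub] at h3
    exact one_ne_zero (neg_eq_zero.1 h3)
  obtain ⟨B, hB⟩ := exp_zero N (fun e => q (c e)) hqc hNN
  have h3 := hfin _ ![z₀, θ₀, Complex.exp z₀, Complex.exp θ₀] q (Complex.exp B) B
    Finset.subset_union_left hq hB
  refine ⟨![z₀, B, θ₀], ?_⟩
  intro g hg
  have h4 := h3 (rename rn g) (by
    rw [aeval_rename, comp_rn x y]
    exact hg)
  rw [eval_rename] at h4
  have h5 := comp_rn ![z₀, B, θ₀] (fun i => Complex.exp (![z₀, B, θ₀] i))
  rw [← h5]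
  exact h4

end Pool.Agent.H286.EX
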