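import Pool.Agent.H664.EX.Stm

/-!
Project EX (helper664), job SHEET: sheets of algebraic functions, lifting of points (by helper286).
The proof of the second part follows Pool/Agent/H935/FH/Good.lean.
-/

set_option autoImplicit false

namespace Pool.Agent.H286.EX

open MvPolynomial Filter Topology Metric Pool.Agent.W996.EC Pool.Agent.Q72.EG Pool.Agent.H664.FH
open Pool.Agent.H664.EX Pool.Agent.H935.FH

theorem pt_all {m : ℕ} {K : Type} [Field K] [Algebra ℂ K] {ζ : Fin m → K}
    (h : AlgebraicIndependent ℂ ζ) (t : Fin m → ℂ) : t ∈ Pt ζ := by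
  intro g hg
  have h1 : g = 0 := by
    apply h
    rw [hg, map_zero]
  rw [h1, map_zero]

/-- clearing denominators in a divisibility -/
theorem clear_den {R : Type} [CommRing R] [IsDomain R] (P A : Polynomial R)
    (F : Type) [Field F] [Algebra R F] [IsFractionRing R F] (B : Polynomial F)
    (h : A.map (algebraMap R F) = P.map (algebraMap R F) * B) :
    ∃ (g : R) (Q : Polynomial R), g ≠ 0 ∧ Polynomial.C g * A = P * Q := by
  obtain ⟨b, hb0, hb⟩ := IsLocalization.integerNormalization_spec (nonZeroDivisors R) B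
  refine ⟨b, IsLocalization.integerNormalization (nonZeroDivisors R) B, nonZeroDivisors.ne_zero hb0,
    ?_⟩
  apply Polynomial.map_injective (algebraMap R F) (IsFractionRing.injective R F)
  rw [Polynomial.map_mul, Polynomial.map_mul, hb, h, Polynomial.map_C]
  rw [Algebra.smul_def, Polynomial.algebraMap_apply]
  ring

/-- an irreducible relation divides all relations, up to denominators -/
theorem dvd_rel {R : Type} [CommRing R] [IsDomain R] [UniqueFactorizationMonoid R] {K : Type}
    [Field K] (φ : R →+* K) (hφ : Function.Injective φ) (z : K) (P A : Polynomial R)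
    (hP : Irreducible P) (hPz : P.eval₂ φ z = 0) (hAz : A.eval₂ φ z = 0) :
    ∃ (g : R) (Q : Polynomial R), g ≠ 0 ∧ Polynomial.C g * A = P * Q := by
  have hdeg : P.natDegree ≠ 0 := by
    intro h0
    rw [Polynomial.eq_C_of_natDegree_eq_zero h0, Polynomial.eval₂_C] at hPz
    have : P.coeff 0 = 0 := hφ (by rw [hPz, map_zero])
    rw [Polynomial.eq_C_of_natDegree_eq_zero h0, this, map_zero] at hP
    exact hP.ne_zero rfl
  have hprim : P.IsPrimitive := hP.isPrimitive hdeg
  have hirr : Irreducible (P.map (algebraMap R (FractionRing R))) :=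
    (hprim.irreducible_iff_irreducible_map_fraction_map).1 hP
  let ψ : FractionRing R →+* K := IsFractionRing.lift (K := FractionRing R) hφ
  have hψ : ψ.comp (algebraMap R (FractionRing R)) = φ := by
    ext r
    exact IsFractionRing.lift_algebraMap hφ r
  have h1 : ∀ B : Polynomial R, (B.map (algebraMap R (FractionRing R))).eval₂ ψ z =
      B.eval₂ φ z := by
    intro B
    rw [Polynomial.eval₂_map, hψ]
  have h2 : P.map (algebraMap R (FractionRing R)) ∣ A.map (algebraMap R (FractionRing R)) := by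
    by_contra hnd
    obtain ⟨a, b, hab⟩ := (hirr.coprime_iff_not_dvd).2 hnd
    have h3 := congrArg (Polynomial.eval₂ ψ z) hab
    rw [Polynomial.eval₂_add, Polynomial.eval₂_mul, Polynomial.eval₂_mul, h1, h1, hPz, hAz,
      mul_zero, mul_zero, add_zero, Polynomial.eval₂_one] at h3
    exact zero_ne_one h3
  obtain ⟨B, hB⟩ := h2
  exact clear_den P A (FractionRing R) B hB

theorem sheet3 {m : ℕ} {K : Type} [Field K] [Algebra ℂ K] (ζ : Fin m → K) (κ : Type)
    [Finite κ] (f : κ → K) (hind : AlgebraicIndependent ℂ ζ) (halg : ∀ k, Al (Set.range ζ) (f k))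
    (k₀ : κ) (P : MvPolynomial (Option (Fin m)) ℂ) (hP : Irreducible P)
    (hPz : aeval (oe (f k₀) ζ) P = 0) : ∃ g : MvPolynomial (Fin m) ℂ, g ≠ 0 ∧
      ∀ (t : Fin m → ℂ) (w : ℂ), eval t g ≠ 0 → eval (oe w t) P = 0 →
        ∃ q : κ → ℂ, Sum.elim t q ∈ Pt (Sum.elim ζ f) ∧ q k₀ = w := by
  obtain ⟨A, H, hH, -, hA, hlift⟩ := Pool.Agent.Q166.EG.lift0 K (Fin m) κ ζ f k₀ halg
  have hinj : Function.Injective (aeval ζ : MvPolynomial (Fin m) ℂ →ₐ[ℂ] K).toRingHom := hind
  have hP' : Irreducible (optionEquivLeft ℂ (Fin m) P) :=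
    (MulEquiv.irreducible_iff (optionEquivLeft ℂ (Fin m)).toMulEquiv).2 hP
  rw [Polynomial.eval_map] at hA
  rw [aeval_oe] at hPz
  obtain ⟨g, Q, hg, hQ⟩ := dvd_rel _ hinj (f k₀) _ A hP' hPz hA
  have hH0 : H ≠ 0 := fun h => hH (by rw [h, map_zero])
  refine ⟨g * H, mul_ne_zero hg hH0, fun t w ht hw => ?_⟩
  rw [map_mul] at ht
  have hg0 : eval t g ≠ 0 := left_ne_zero_of_mul ht
  have hH1 : eval t H ≠ 0 := right_ne_zero_of_mul ht
  have hz : (A.map (eval t)).eval w = 0 := by
    have h1 := congrArg (Polynomial.eval₂ (eval t) w) hQ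
    rw [Polynomial.eval₂_mul, Polynomial.eval₂_mul, Polynomial.eval₂_C] at h1
    have h2 : (optionEquivLeft ℂ (Fin m) P).eval₂ (eval t) w = 0 := by
      have h3 := aeval_oe w t P
      rw [MvPolynomial.aeval_eq_eval] at h3
      have h4 : ((aeval t : MvPolynomial (Fin m) ℂ →ₐ[ℂ] ℂ).toRingHom) = eval t := by
        ext x <;> simp
      rw [h4] at h3
      rw [← h3]
      exact hw
    rw [h2, zero_mul] at h1
    rw [Polynomial.eval_map]
    exact (mul_eq_zero.1 h1).resolve_left hg0
  obtain ⟨p, hp, hp1, hp2⟩ := hlift t (pt_all hind t) hH1 w hz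
  refine ⟨p ∘ Sum.inr, ?_, hp2⟩
  have : Sum.elim t (p ∘ Sum.inr) = p := by
    funext x
    rcases x with i | k
    · exact (hp1 i).symm
    · rfl
  rw [this]
  exact hp

/-- **job SHEET** -/
theorem sheet : S_sheet := by
  classical
  intro m K _ _ ζ κ _ f hind halg
  obtain ⟨Θ, H1, g, hH1, ha, hb, hc⟩ := Pool.Agent.Q166.EG.alg K (Fin m) κ ζ f halg
  have hH0 : H1 ≠ 0 := fun h => hH1 (by rw [h, map_zero])
  -- the degree of `Θ`
  obtain ⟨d, hd⟩ : ∃ d, Θ.natDegree = d + 1 := by
    have hne : aeval (Sum.elim ζ f) (rename Sum.inl H1 : MvPolynomial (Fin m ⊕ κ) ℂ) ≠ 0 := by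
      rw [aeval_rename, Sum.elim_comp_inl]
      exact hH1
    obtain ⟨p, hp, hp1⟩ := exists_pt _ _ hne
    rw [eval_rename] at hp1
    have hp2 : Sum.elim (p ∘ Sum.inl) (p ∘ Sum.inr) ∈ Pt (Sum.elim ζ f) := by
      rw [Sum.elim_comp_inl_inr]
      exact hp
    obtain ⟨z, hz, -⟩ := hb _ _ hp2 hp1
    have h1 := (ha _ (pt_all hind _) hp1).1
    have h0 : Θ.natDegree ≠ 0 := by
      intro h0
      rw [Polynomial.eq_C_of_natDegree_eq_zero h0, Polynomial.map_C, Polynomial.eval_C] at hz
      apply h1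
      rw [Polynomial.leadingCoeff, h0]
      exact hz
    exact ⟨Θ.natDegree - 1, by omega⟩
  refine ⟨H1, hH0, ?_, ?_, ?_⟩
  · intro t htH
    have ht := pt_all hind t
    have hlead := (ha _ ht htH).1
    have hdeg : (Θ.map (eval t)).natDegree = Θ.natDegree :=
      Polynomial.natDegree_map_of_leadingCoeff_ne_zero _ hlead
    have hdeg' : (Θ.map (eval t)).degree ≠ 0 := by
      intro h
      have := Polynomial.natDegree_eq_zero_iff_degree_le_zero.2 h.le
      omega
    obtain ⟨w, hw⟩ := IsAlgClosed.exists_root _ hdeg'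
    exact ⟨_, hc _ ht htH w hw⟩
  · intro W _ _ _ U t hU hconv hX htH u0 hu0 p0 hpt0
    have htP : ∀ u ∈ U, t u ∈ Pt ζ := fun u _ => pt_all hind _
    have htd : ∀ i, DifferentiableOn ℂ (fun u => t u i) U := differentiableOn_pi.1 hX
    obtain ⟨z0, hz0, hz0'⟩ := hb (t u0) p0 hpt0 (htH u0 hu0)
    -- the polynomial
    set F : W → ℂ → ℂ := fun u z => (Θ.map (eval (t u))).eval z with hF
    have hcoeff : ∀ u j, (Θ.map (eval (t u))).coeff j = eval (t u) (Θ.coeff j) := fun u j =>
      Polynomial.coeff_map _ _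
    have hcd : ∀ j, DifferentiableOn ℂ (fun u => eval (t u) (Θ.coeff j)) U := fun j =>
      diff_eval htd (Θ.coeff j)
    have hdeg : ∀ u ∈ U, (Θ.map (eval (t u))).natDegree = Θ.natDegree := fun u hu =>
      Polynomial.natDegree_map_of_leadingCoeff_ne_zero _ (ha (t u) (htP u hu) (htH u hu)).1
    have hFsum : ∀ u ∈ U, ∀ z, F u z =
        ∑ j ∈ Finset.range (d + 2), eval (t u) (Θ.coeff j) * z ^ j := by
      intro u hu z
      simp only [hF]
      rw [Polynomial.eval_eq_sum_range, hdeg u hu, hd]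
      simp only [hcoeff]
    have hFc : ContDiffOn ℂ 1 (fun p : W × ℂ => F p.1 p.2) (U ×ˢ Set.univ) := by
      have hopen : IsOpen (U ×ˢ (Set.univ : Set ℂ)) := hU.prod isOpen_univ
      have h3 : DifferentiableOn ℂ (fun p : W × ℂ => F p.1 p.2) (U ×ˢ Set.univ) := by
        have h4 : DifferentiableOn ℂ (fun p : W × ℂ =>
            ∑ j ∈ Finset.range (d + 2), eval (t p.1) (Θ.coeff j) * p.2 ^ j) (U ×ˢ Set.univ) := by
          refine DifferentiableOn.fun_sum fun j _ => ?_
          have h5 : DifferentiableOn ℂ (fun p : W × ℂ => eval (t p.1) (Θ.coeff j))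
              (U ×ˢ Set.univ) :=
            (hcd j).comp differentiableOn_fst fun p hp => hp.1
          exact h5.mul (differentiableOn_snd.pow j)
        exact h4.congr fun p hp => hFsum p.1 hp.1 p.2
      exact_mod_cast Sq58.Holo.contDiffOn_of_differentiableOn hopen h3 1
    have hprop : ∀ C : Set W, C ⊆ U → IsCompact C → ∀ M : ℝ, ∃ B : ℝ, ∀ s ∈ C, ∀ z,
        ‖F s z‖ ≤ M → ‖z‖ ≤ B := by
      intro C hCU hC M
      rcases C.eq_empty_or_nonempty with rfl | hne
      · exact ⟨0, fun s hs => absurd hs (Set.notMem_empty _)⟩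
      have hbd : ∀ j, ∃ A : ℝ, ∀ s ∈ C, ‖eval (t s) (Θ.coeff j)‖ ≤ A := fun j =>
        hC.exists_bound_of_continuousOn ((hcd j).continuousOn.mono hCU)
      choose A hA using hbd
      obtain ⟨s1, hs1, hmin⟩ :=
        hC.exists_isMinOn hne (((hcd (d + 1)).continuousOn.mono hCU).norm)
      have hm : 0 < ‖eval (t s1) (Θ.coeff (d + 1))‖ := by
        rw [norm_pos_iff]
        have := (ha (t s1) (htP s1 (hCU hs1)) (htH s1 (hCU hs1))).1
        rwa [Polynomial.leadingCoeff, hd] at this
      have hAnn : ∀ j, 0 ≤ A j := fun j => (norm_nonneg _).trans (hA j s1 hs1)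
      set A' : ℝ := ∑ j ∈ Finset.range (d + 2), A j with hA'
      have hA'0 : 0 ≤ A' := Finset.sum_nonneg fun j _ => hAnn j
      refine ⟨(|M| + (d + 1) * A') / ‖eval (t s1) (Θ.coeff (d + 1))‖ + 1, fun s hs z hz => ?_⟩
      refine Pool.Agent.Q239.EG.root_bound (p := Θ.map (eval (t s))) (d := d) ?_ hm (abs_nonneg M)
        hA'0 ?_ ?_ (hz.trans (le_abs_self M))
      · rw [hdeg s (hCU hs), hd]
      · rw [hcoeff]
        exact hmin hs
      · intro j
        rw [hcoeff]
        by_cases hj : j < d + 2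
        · exact (hA j s hs).trans
            (Finset.single_le_sum (fun i _ => hAnn i) (Finset.mem_range.2 hj))
        · rw [Polynomial.coeff_eq_zero_of_natDegree_lt (by omega), map_zero, norm_zero]
          exact hA'0
    have hsimple : ∀ s ∈ U, ∀ z, F s z = 0 → deriv (F s) z ≠ 0 := by
      intro s hs z hz
      have h3 := (ha (t s) (htP s hs) (htH s hs)).2 z hz
      simp only [hF]
      rwa [Polynomial.deriv]
    obtain ⟨Z, hZd, hZc, hZ, -⟩ := Pool.Agent.H713R3.ZA.ROOT.main U F hU hconv hFc hprop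
      hsimple u0 hu0 z0 hz0
    have : Fintype κ := Fintype.ofFinite κ
    refine ⟨fun u k => ((g k).map (eval (t u))).eval (Z u) / eval (t u) H1, ?_, ?_, ?_⟩
    · rw [differentiableOn_pi]
      intro l
      simp only [div_eq_mul_inv]
      refine DifferentiableOn.mul ?_ ((diff_eval htd H1).inv htH)
      have h3 : ∀ p : Polynomial (MvPolynomial (Fin m) ℂ),
          DifferentiableOn ℂ (fun u => (p.map (eval (t u))).eval (Z u)) U := by
        intro p
        induction p using Polynomial.induction_on' with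
        | add p q hp hq =>
          simp only [Polynomial.map_add, Polynomial.eval_add]
          exact hp.add hq
        | monomial m a =>
          simp only [Polynomial.map_monomial, Polynomial.eval_monomial]
          exact (diff_eval htd a).mul (hZd.pow m)
      exact h3 _
    · funext l
      show ((g l).map (eval (t u0))).eval (Z u0) / eval (t u0) H1 = p0 l
      rw [hZc, ← hz0' l, mul_div_cancel_left₀ _ (htH u0 hu0)]
    · intro u hu
      exact hc (t u) (htP u hu) (htH u hu) (Z u) (hZ u hu)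
  · intro k₀ P hP hPz
    exact sheet3 ζ κ f hind halg k₀ P hP hPz

end Pool.Agent.H286.EX
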